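import Mathlib

set_option autoImplicit false

namespace Pool.Agent.Results.MP_c360fa_mp.FiniteDim

open MvPolynomial Finset

/-- The ring of jet polynomials. -/
abbrev A := MvPolynomial ℕ ℝ

/-- The total derivative, d (u i) = u (i + 1). -/
noncomputable def d : Derivation ℝ A A := mkDerivation ℝ fun i => X (i + 1)

/-- The product f * g of the problem. -/
noncomputable def star (f g : A) : A :=
  ∑ᶠ i : ℕ, (pderiv i f * d^[i] g + (-1) ^ i * d^[i] (f * pderiv i g))

noncomputable def E (k : ℕ) : Derivation ℝ A A := mkDerivation ℝ fun i => X (i + k)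

noncomputable def P (x : ℝ) : Derivation ℝ A A := mkDerivation ℝ fun i => C (x ^ i)

def Ord (n : ℕ) (p : A) : Prop := ∀ j, n ≤ j → pderiv j p = 0

theorem comm {D₁ D₂ D₃ : Derivation ℝ A A}
    (h : ∀ i, D₁ (D₂ (X i)) = D₂ (D₁ (X i)) + D₃ (X i)) (p : A) :
    D₁ (D₂ p) = D₂ (D₁ p) + D₃ p := by
  have : ⁅D₁, D₂⁆ = D₃ := derivation_ext fun i => by rw [Derivation.commutator_apply, h]; ring
  rw [← this, Derivation.commutator_apply]
  ring

theorem pd_E (k j : ℕ) (p : A) :
    pderiv (j + k) (E k p) = E k (pderiv (j + k) p) + pderiv j p :=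
  comm (fun i => by
    simp only [E, mkDerivation_X, pderiv_X, Pi.single_apply]
    split_ifs <;> first | omega | simp) p

theorem pd_d (j : ℕ) (p : A) : pderiv (j + 1) (d p) = d (pderiv (j + 1) p) + pderiv j p :=
  pd_E 1 j p

theorem pd_pd (i j : ℕ) (p : A) : pderiv i (pderiv j p) = pderiv j (pderiv i p) := by
  simpa using comm (D₁ := pderiv i) (D₂ := pderiv j) (D₃ := 0) (fun k => by
    simp only [pderiv_X, Pi.single_apply]
    split_ifs <;> simp) p

theorem P_E (x : ℝ) (k : ℕ) (p : A) : P x (E k p) = E k (P x p) + x ^ k • P x p :=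
  comm (D₃ := x ^ k • P x) (fun i => by
    simp [E, P, mkDerivation_X, smul_eq_C_mul, pow_add, mul_comm]) p

theorem exists_ord (p : A) : ∃ n, Ord n p :=
  ⟨p.vars.sup id + 1, fun j hj => pderiv_eq_zero_of_notMem_vars fun h =>
    absurd (le_sup (f := id) h) (by simp only [id]; omega)⟩

theorem eq_C {p : A} (h : Ord 0 p) : p = C (constantCoeff p) := by
  ext m
  rw [coeff_C]
  split_ifs with hm
  · rw [← hm, constantCoeff_eq]
  · obtain ⟨i, hi⟩ := Finsupp.ne_iff.1 (Ne.symm hm)
    have h1 := coeff_pderiv (i := i) p (m - Finsupp.single i 1)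
    rw [h i i.zero_le, tsub_add_cancel_of_le (Finsupp.single_le_iff.2 (Nat.pos_of_ne_zero hi)),
      coeff_zero, eq_comm, mul_eq_zero] at h1
    exact h1.resolve_right (by positivity)

theorem sum_pd {n : ℕ} {p : A} (h : Ord n p) (D : Derivation ℝ A A) :
    D p = ∑ i ∈ range n, pderiv i p * D (X i) := by
  obtain ⟨m, hm⟩ : ∃ m, ∀ i ∈ p.vars, i < m :=
    ⟨p.vars.sup id + 1, fun i hi => Nat.lt_succ_of_le (le_sup (f := id) hi)⟩
  have h0 : ∀ (k : ℕ) (q : A), (∑ i ∈ range k, D (X i) • pderiv i : Derivation ℝ A A) q =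
      ∑ i ∈ range k, pderiv i q * D (X i) := fun k q => by
    induction k with
    | zero => simp
    | succ k ih => simp [sum_range_succ, ih, mul_comm]
  have h1 : D p = (∑ i ∈ range (n + m), D (X i) • pderiv i : Derivation ℝ A A) p :=
    derivation_eq_of_forall_mem_vars fun i hi => by
      have := hm i hi
      simp only [h0, pderiv_X, Pi.single_apply, ite_mul, one_mul, zero_mul, sum_ite_eq, mem_range]
      rw [if_pos (by omega)]
  rw [h1, h0, sum_range_add,
    sum_eq_zero (s := range m) fun i _ => by simp [h _ (Nat.le_add_right n i)], add_zero]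

theorem Ord.succ_d {n : ℕ} {p : A} (h : Ord n p) : Ord (n + 1) (d p) := fun j hj => by
  obtain ⟨j, rfl⟩ : ∃ i, j = i + 1 := ⟨j - 1, by omega⟩
  rw [pd_d, h _ (by omega), h _ (by omega), map_zero, add_zero]

theorem d_zero {p : A} (h : d p = 0) : Ord 0 p := by
  obtain ⟨n, hn⟩ := exists_ord p
  induction n with
  | zero => exact hn
  | succ n ih =>
    refine ih fun j hj => ?_
    have := pd_d j p
    rwa [h, hn _ (by omega), map_zero, map_zero, zero_add, eq_comm] at this

theorem cc_E (k : ℕ) (p : A) : constantCoeff (E k p) = 0 := by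
  obtain ⟨n, hn⟩ := exists_ord p
  rw [sum_pd hn]
  simp [E, mkDerivation_X]

noncomputable def PP (l : List ℝ) (p : A) : A := l.foldr (fun x q => P x q) p

theorem PP_E (l : List ℝ) (k : ℕ) (p : A) :
    PP l (E k p) = E k (PP l p) + (l.map (· ^ k)).sum • PP l p := by
  induction l with
  | nil => simp [PP]
  | cons x l ih =>
    simp only [PP, List.foldr_cons, List.map_cons, List.sum_cons] at ih ⊢
    rw [ih, map_add, P_E, Derivation.map_smul, add_smul, add_assoc]

theorem cc_PP (l : List ℝ) (p : A) (i : ℕ) :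
    constantCoeff (PP l (d^[i] p)) = l.sum ^ i * constantCoeff (PP l p) := by
  induction i with
  | zero => simp
  | succ i ih =>
    rw [Function.iterate_succ_apply', show d = E 1 from rfl, PP_E, map_add, cc_E,
      constantCoeff_smul, ← show d = E 1 from rfl, ih]
    simp [pow_succ', mul_assoc]

noncomputable def K : A := X 1 ^ 4

noncomputable def g : A := X 3 + K

theorem d_X (i : ℕ) : d (X i) = X (i + 1) := mkDerivation_X _ _ _

theorem ord_K (i : ℕ) : Ord (i + 2) (d^[i] K) := by
  induction i with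
  | zero => exact fun j hj => by simp [K, pderiv_X_of_ne (show 1 ≠ j by omega)]
  | succ i ih => exact Function.iterate_succ_apply' d i K ▸ ih.succ_d

theorem iter_g (i : ℕ) : d^[i] g = X (i + 3) + d^[i] K := by
  induction i with
  | zero => rfl
  | succ i ih =>
    rw [Function.iterate_succ_apply', Function.iterate_succ_apply', ih, map_add, d_X]

theorem num (D : Derivation ℝ A A) (n : ℕ) [n.AtLeastTwo] : D ofNat(n) = 0 :=
  D.map_natCast n

theorem star_eq {n : ℕ} {h : A} (hn : Ord n h) : star h g = E 3 h +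
    ∑ i ∈ range n, pderiv i h * d^[i] K - d (d (d h)) - 4 * d (h * X 1 ^ 3) := by
  have h0 : ∀ i : ℕ, d^[i] (0 : A) = 0 := fun i => Function.iterate_fixed (map_zero d) i
  have h1 : ∀ i, 4 ≤ i → pderiv i g = 0 := fun i hi => by
    simp [g, K, pderiv_X_of_ne (show 1 ≠ i by omega), pderiv_X_of_ne (show 3 ≠ i by omega)]
  rw [star, finsum_eq_sum_of_support_subset (s := range (n + 4)) _ fun i hi => by
    by_contra hc
    have : n + 4 ≤ i := by simpa using hc
    exact hi (by simp [hn i (by omega), h1 i (by omega), h0]), sum_add_distrib,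
    sum_range_add _ n 4, sum_eq_zero (s := range 4) fun i _ => by simp [hn _ (Nat.le_add_right n i)],
    add_comm n 4, sum_range_add _ 4 n,
    sum_eq_zero (s := range n) (f := fun i => _ * d^[4 + i] _) fun i _ => by
      simp only [h1 _ (Nat.le_add_right 4 i), mul_zero, h0], sum_pd hn (E 3)]
  simp only [iter_g, mul_add, sum_add_distrib, E, mkDerivation_X]
  simp [sum_range_succ, g, K, pderiv_X, h0, num]
  ring

theorem coeff_rel {n : ℕ} {h : A} (hn : Ord n h) (hs : star h g = 0) {i : ℕ} (hi : i < n)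
    (h6 : 6 ≤ i) : constantCoeff (pderiv i h) = 0 := by
  have hP : ∀ x, P x (X 1) = C x := fun x => by simp [P, mkDerivation_X]
  have hC : ∀ x y, P x (C y) = 0 := fun x y => derivation_C _ _
  have h1 : ∀ x, constantCoeff (P x h) = ∑ i ∈ range n, constantCoeff (pderiv i h) * x ^ i :=
    fun x => by
      rw [sum_pd hn]
      simp [P, mkDerivation_X]
  have key : ∀ a b c e : ℝ, a ^ 3 + b ^ 3 + c ^ 3 + e ^ 3 = (a + b + c + e) ^ 3 →
      ∑ i ∈ range n, constantCoeff (pderiv i h) * ((a + b + c + e) ^ i * (a * b * c * e) -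
        (a + b + c + e) * (a ^ i * (b * c * e) + b ^ i * (a * c * e) + c ^ i * (a * b * e) +
          e ^ i * (a * b * c))) = 0 := fun a b c e habc => by
    have k0 : ∀ i, constantCoeff (d^[i] K) = 0 := fun i => by
      simpa [PP, K] using cc_PP [] K i
    have k1 : ∀ i x, constantCoeff (P x (d^[i] K)) = 0 := fun i x => by
      simpa [PP, K, hP] using cc_PP [x] K i
    have k2 : ∀ i x y, constantCoeff (P x (P y (d^[i] K))) = 0 := fun i x y => by
      simpa [PP, K, hP, hC] using cc_PP [x, y] K i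
    have k3 : ∀ i x y z, constantCoeff (P x (P y (P z (d^[i] K)))) = 0 := fun i x y z => by
      simpa [PP, K, hP, hC] using cc_PP [x, y, z] K i
    have k4 : ∀ i, constantCoeff (P a (P b (P c (P e (d^[i] K))))) =
        (a + b + c + e) ^ i * (24 * (a * b * c * e)) := fun i => by
      have := cc_PP [a, b, c, e] K i
      simp [PP, K, hP, hC, num, map_ofNat] at this
      simp only [K, this]
      ring
    have k5 := cc_PP [a, b, c, e] h 3
    have k6 := congrArg constantCoeff (PP_E [a, b, c, e] 3 h)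
    have k7 := cc_PP [a, b, c, e] (h * X 1 ^ 3) 1
    have k8 := congrArg (fun q => constantCoeff (PP [a, b, c, e] q)) (star_eq hn)
    have k9 : constantCoeff (P a (P b (P c (P e (h * X 1 ^ 3))))) =
        6 * (constantCoeff (P a h) * (b * c * e) + constantCoeff (P b h) * (a * c * e) +
          constantCoeff (P c h) * (a * b * e) + constantCoeff (P e h) * (a * b * c)) := by
      simp [hP, hC, num, map_ofNat]
      ring
    have k10 : ∀ q : A, P a (P b (P c (P e (4 * q)))) = 4 * P a (P b (P c (P e q))) := fun q => by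
      simp [num]
    have k11 : ∀ i, constantCoeff (P a (P b (P c (P e (pderiv i h * d^[i] K))))) =
        constantCoeff (pderiv i h) * ((a + b + c + e) ^ i * (24 * (a * b * c * e))) := fun i => by
      simp [k0, k1, k2, k3, k4]
    simp only [PP, List.foldr_cons, List.foldr_nil, hs, map_zero, map_sub, map_add, map_sum, k10,
      k11, map_mul, map_ofNat, cc_E, constantCoeff_smul, List.map_cons, List.map_nil, List.sum_cons,
      List.sum_nil, Function.iterate_succ, Function.iterate_zero, Function.comp, id, smul_eq_mul,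
      k9, h1] at k5 k6 k7 k8
    rw [k5, k6, k7] at k8
    have e1 : ∀ (u : ℕ → ℝ) (σ p q r s t : ℝ), ∑ i ∈ range n, u i * (σ ^ i * p -
        σ * (a ^ i * q + b ^ i * r + c ^ i * s + e ^ i * t)) =
        (∑ i ∈ range n, u i * (σ ^ i * (24 * p))) / 24 - σ * ((∑ i ∈ range n, u i * a ^ i) * q +
          (∑ i ∈ range n, u i * b ^ i) * r + (∑ i ∈ range n, u i * c ^ i) * s +
          (∑ i ∈ range n, u i * e ^ i) * t) := fun u σ p q r s t => by
      simp only [sum_div, sum_mul, mul_sum, ← sum_add_distrib, ← sum_sub_distrib]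
      exact sum_congr rfl fun i _ => by ring
    rw [e1]
    linear_combination (-1 / 24) * k8 -
      (1 / 24 * constantCoeff (P a (P b (P c (P e h))))) * habc
  have h2 : (∑ i ∈ range n, Polynomial.monomial i (constantCoeff (pderiv i h) * (9 ^ i * 280 -
      9 * ((-5) ^ i * (-56) + (-1) ^ i * (-280) + 7 ^ i * 40 + 8 ^ i * 35))) : Polynomial ℝ) = 0 :=
    Polynomial.eq_zero_of_infinite_isRoot _ ((Set.Ioi_infinite 0).mono fun t ht => by
      have := key (-5 * t) (-1 * t) (7 * t) (8 * t) (by ring)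
      rw [Set.mem_ofPred_eq, Polynomial.IsRoot, Polynomial.eval_finsetSum,
        ← mul_right_inj' (pow_ne_zero 4 (ne_of_gt ht)), mul_zero, mul_sum, ← this]
      refine sum_congr rfl fun i _ => ?_
      rw [Polynomial.eval_monomial, show -5 * t + -1 * t + 7 * t + 8 * t = 9 * t by ring]
      simp only [mul_pow]
      ring)
  have h3 := congrArg (Polynomial.coeff · i) h2
  simp only [Polynomial.finsetSum_coeff, Polynomial.coeff_monomial, sum_ite_eq', mem_range, hi,
    if_true, Polynomial.coeff_zero, mul_eq_zero] at h3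
  refine h3.resolve_right (ne_of_gt ?_)
  obtain ⟨k, rfl⟩ := Nat.exists_eq_add_of_le h6
  have b5 : (-5 : ℝ) ^ k ≤ 9 ^ k ∧ -9 ^ k ≤ (-5 : ℝ) ^ k := by
    rw [and_comm, ← abs_le, abs_pow]
    exact pow_le_pow_left₀ (abs_nonneg _) (by norm_num) k
  have b1 : (-1 : ℝ) ^ k ≤ 9 ^ k ∧ -9 ^ k ≤ (-1 : ℝ) ^ k := by
    rw [and_comm, ← abs_le, abs_pow]
    exact pow_le_pow_left₀ (abs_nonneg _) (by norm_num) k
  have b7 : (7 : ℝ) ^ k ≤ 9 ^ k := pow_le_pow_left₀ (by norm_num) (by norm_num) k
  have b8 : (8 : ℝ) ^ k ≤ 9 ^ k := pow_le_pow_left₀ (by norm_num) (by norm_num) k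
  have b9 : (0 : ℝ) < 9 ^ k := by positivity
  simp only [pow_add]
  linarith [b5.1, b5.2, b1.1, b1.2]

theorem inj {h : A} (hs : star h g = 0) (h0 : ∀ i < 6, constantCoeff (pderiv i h) = 0) :
    h = 0 := by
  obtain ⟨n, hn⟩ := exists_ord h
  have h1 : Ord 1 h := by
    induction n with
    | zero => exact fun j _ => hn j j.zero_le
    | succ n ih =>
      rcases n with _ | m
      · exact hn
      have h2 := congrArg (pderiv (m + 3)) (star_eq hn)
      have h3 : Ord (m + 2) (h * X 1 ^ 3) := fun j hj => by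
        simp [hn j hj, pderiv_X_of_ne (show 1 ≠ j by omega)]
      rw [hs, map_zero, map_sub, map_sub, map_add, map_sum, sum_eq_zero fun i hi => by
        rw [pderiv_mul, pd_pd, hn (m + 3) (by omega), ord_K i _ (by have := mem_range.1 hi; omega),
          map_zero, zero_mul, mul_zero, add_zero], pderiv_mul, num, h3.succ_d _ le_rfl, pd_E] at h2
      simp only [pd_d, hn (m + 3) (by omega), hn (m + 2) le_rfl, map_zero, zero_add] at h2
      have h4 : d (pderiv (m + 1) h) = 0 := by
        refine (mul_eq_zero.1 (show 3 * d (pderiv (m + 1) h) = 0 by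
          linear_combination h2)).resolve_left (by norm_num)
      refine ih fun j hj => ?_
      rcases hj.eq_or_lt with rfl | hj
      · rw [eq_C (d_zero h4), (lt_or_ge (m + 1) 6).elim (h0 _) (coeff_rel hn hs (by omega)), C_0]
      · exact hn j hj
  have h2 := congrArg (fun q => pderiv 1 (pderiv 1 (pderiv 2 q))) (star_eq h1)
  have h3 : ∀ j, 1 ≤ j → ∀ i, pderiv j (pderiv i h) = 0 := fun j hj i => by
    rw [pd_pd, h1 j hj, map_zero]
  have h4 : E 3 h = pderiv 0 h * X 3 := by
    rw [sum_pd h1]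
    simp [E, mkDerivation_X]
  simp [hs, h4, K, pd_d, h1 1, h1 2, h3 1, h3 2, pderiv_X, pd_pd 1 0, num] at h2
  exact h2

theorem vars_le {n : ℕ} {p : A} (h : Ord (n + 1) p) : ∀ i ∈ p.vars, i ≤ n := fun i hi => by
  by_contra hc
  obtain ⟨m, hm, him⟩ := (mem_vars_iff_mem_support i).1 hi
  have hi := Finsupp.mem_support_iff.1 him
  have h1 := coeff_pderiv (i := i) p (m - Finsupp.single i 1)
  rw [h i (by omega), tsub_add_cancel_of_le (Finsupp.single_le_iff.2 (Nat.pos_of_ne_zero hi)),
    coeff_zero, eq_comm, mul_eq_zero] at h1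
  exact mem_support_iff.1 hm (h1.resolve_right (by positivity))

theorem star_lin (h : A) : star h g = ((mkDerivation ℝ fun i => d^[i] g).toLinearMap -
    d.toLinearMap ∘ₗ d.toLinearMap ∘ₗ d.toLinearMap -
    LinearMap.mulLeft ℝ 4 ∘ₗ d.toLinearMap ∘ₗ LinearMap.mulRight ℝ (X 1 ^ 3) : A →ₗ[ℝ] A) h := by
  obtain ⟨n, hn⟩ := exists_ord h
  rw [star_eq hn, sum_pd hn (E 3), ← sum_add_distrib]
  congr 2
  refine Eq.trans ?_ (sum_pd hn _).symm
  simp only [E, mkDerivation_X, iter_g, mul_add]

theorem star_dg : star (d g) g = 0 := by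
  have h1 : ∀ p, mkDerivation ℝ (fun i => d^[i] g) (d p) = d (mkDerivation ℝ (fun i => d^[i] g) p) :=
    fun p => by
      simpa using comm (D₁ := mkDerivation ℝ fun i => d^[i] g) (D₂ := d) (D₃ := 0) (fun i => by
        rw [d_X, mkDerivation_X, mkDerivation_X, Function.iterate_succ_apply']
        simp) p
  have h2 : mkDerivation ℝ (fun i => d^[i] g) g = d (d (d g)) + 4 * (d g * X 1 ^ 3) := by
    nth_rewrite 2 [g]
    rw [map_add, K, Derivation.leibniz_pow, mkDerivation_X, mkDerivation_X]
    simp only [Function.iterate_succ_apply', Function.iterate_zero, id, smul_eq_mul, nsmul_eq_mul,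
      Nat.cast_ofNat]
    ring
  simp only [star_lin, LinearMap.sub_apply, LinearMap.comp_apply, LinearMap.mulLeft_apply,
    LinearMap.mulRight_apply, Derivation.coeFn_coe]
  rw [h1, h2, map_add, d.leibniz 4, num, smul_zero, add_zero, smul_eq_mul]
  ring

/-- A counterexample to Q1: g = u3 + u1^4 and f = d g = u4 + 4 u1^3 u2. -/
theorem result : ∃ (n m : ℕ) (f g : A), n > m ∧ m > 1 ∧
    (∀ i ∈ f.vars, i ≤ n) ∧ pderiv n f ≠ 0 ∧ (∀ i ∈ g.vars, i ≤ m) ∧ pderiv m g ≠ 0 ∧
    star f g = 0 ∧ FiniteDimensional ℝ (Submodule.span ℝ {h : A | star h g = 0}) := by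
  have h1 : Ord 4 g := fun i hi => by
    simp [g, K, pderiv_X_of_ne (show 1 ≠ i by omega), pderiv_X_of_ne (show 3 ≠ i by omega)]
  have h2 : pderiv 3 g ≠ 0 := by simp [g, K, pderiv_X_of_ne (show 1 ≠ 3 by omega)]
  refine ⟨4, 3, d g, g, by norm_num, by norm_num, vars_le h1.succ_d, ?_, vars_le h1, h2, star_dg,
    ?_⟩
  · rwa [pd_d, h1 _ le_rfl, map_zero, zero_add]
  · refine FiniteDimensional.of_injective ((LinearMap.pi fun i : Fin 6 =>
      lcoeff ℝ 0 ∘ₗ (pderiv i.1).toLinearMap).domRestrict _) ((injective_iff_map_eq_zero _).2 ?_)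
    rintro ⟨h, hh⟩ h0
    refine Subtype.ext (inj ?_ fun i hi => congrFun h0 ⟨i, hi⟩)
    simp only [star_lin] at hh ⊢
    exact (Submodule.span_eq (LinearMap.ker _)).le hh

end Pool.Agent.Results.MP_c360fa_mp.FiniteDim
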